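import Pool.Agent.Lib_helper17.SubsetProducts2

set_option autoImplicit false

open Pool.Agent.LibHelper17.SubsetProducts

namespace Pool.Agent.Results.MP_4a9f27_co.AllGroupsQuadratic

/-- Quadratic lower bound for subset products in an arbitrary group: for every group `G` and every
finite `S ⊆ G` there is a finite subgroup `H` with
`|Π(S)| ≥ |H| + 10⁻⁶ |S \ H|²`, where `Π(S)` is the set of products of distinct elements of `S`
in any order (including the empty product). -/
theorem result : ∀ (G : Type*) [Group G] (S : Finset G),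
    ∃ H : Subgroup G, (H : Set G).Finite ∧
      ((Set.ncard {g : G | ∃ l : List G, l.Nodup ∧ (∀ x ∈ l, x ∈ S) ∧ l.prod = g} : ℕ) : ℝ)
        ≥ (Nat.card H : ℝ) + (1 / 1000000 : ℝ)
            * ((Set.ncard ((S : Set G) \ (H : Set G)) : ℕ) : ℝ) ^ 2 := by
  intro G _ S
  obtain ⟨H, hfin, h⟩ := main_nat S
  refine ⟨H, hfin, ?_⟩
  have h1 : Set.ncard {g : G | ∃ l : List G, l.Nodup ∧ (∀ x ∈ l, x ∈ S) ∧ l.prod = g}
      = (PF S).card := ncard_PS S
  rw [h1]
  have h2 : (1000000 : ℝ) * (Nat.card H : ℝ)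
      + ((Set.ncard ((S : Set G) \ (H : Set G)) : ℕ) : ℝ) ^ 2
      ≤ 1000000 * (((PF S).card : ℕ) : ℝ) := by
    exact_mod_cast h
  linarith

end Pool.Agent.Results.MP_4a9f27_co.AllGroupsQuadratic
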